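import Mathlib
import Pool.Agent.V11259.MemTailLadder

/-!
# MP_def589: a prefix-independent condition with finite general and infinite chromatic memory

The condition `tailLadder` of `Pool.Agent.V11259.MemTailLadder` is given by the infinite ladder
automaton with an additional reset colour; a word is accepted when the run of the automaton fails
only finitely often. The automaton is monotone for an order with a greatest element and its states
form four well-ordered chains, which bounds the general memory; in an arena in which Antagonist
repeatedly resets and picks one of two words, every finite chromatic memory confuses the two words
in every round.
-/

namespace Pool.Agent.Results.MP_def589_lc.PrefixIndependent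

open V11259.Mem

/-- **There are a finite set of colours and a prefix-independent winning condition `W` with
`GenMem W ≤ 4` and `ChrMem W = ∞`.** -/
theorem result : ∃ (C : Type) (_ : Finite C) (W : Set (ℕ → C)),
    PrefixIndependent W ∧ genMem W ≤ 4 ∧ chrMem W = ⊤ := by
  refine ⟨Option Col, inferInstance, tailLadder, tailLadder_prefixIndependent, ?_,
    tailLadder_chrMem⟩
  exact sInf_le ⟨4, by norm_num, tailLadder_gen, rfl⟩

end Pool.Agent.Results.MP_def589_lc.PrefixIndependent
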